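import Pool.Agent.Helper9.SK.St
import Pool.Agent.Helper48.BK.M_APZ

/-!
# Project SK: products of local densities
-/

set_option autoImplicit false

namespace Pool.Agent.Helper53.SK

open Finset
open Pool.Agent.Helper48.BK
open Pool.Agent.Helper9.SK

private lemma gg_nonneg (v p : ℕ) : 0 ≤ gg v p := by
  unfold gg
  positivity

private lemma poly (t : ℝ) (h0 : 0 ≤ t) (h1 : t ≤ 1 / 5) : (1 - t) ^ 5 ≤ 1 - 3 * t := by
  have h : 1 - 3 * t - (1 - t) ^ 5 = t * ((2 - 10 * t) + t ^ 2 * (10 - 5 * t) + t ^ 4) := by ring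
  have h2 : 0 ≤ t * ((2 - 10 * t) + t ^ 2 * (10 - 5 * t) + t ^ 4) := by
    refine mul_nonneg h0 ?_
    have h3 : 0 ≤ t ^ 2 * (10 - 5 * t) := mul_nonneg (by positivity) (by linarith)
    have h4 : 0 ≤ t ^ 4 := by positivity
    linarith
  linarith

private lemma frac (p : ℝ) (hp : 5 ≤ p) : (1 - 1 / p) ^ 8 ≤ (p - 3) ^ 2 / (p - 1) ^ 2 := by
  have hp0 : 0 < p := by linarith
  have hp1 : 0 < p - 1 := by linarith
  set t : ℝ := 1 / p with ht
  have ht0 : 0 ≤ t := by positivity
  have ht1 : t ≤ 1 / 5 := by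
    rw [ht]
    exact one_div_le_one_div_of_le (by norm_num) hp
  have hpt : p * t = 1 := by rw [ht]; field_simp
  have h5 := poly t ht0 ht1
  have h1t : 0 < 1 - t := by linarith
  have h4 : (1 - t) ^ 4 ≤ (p - 3) / (p - 1) := by
    rw [le_div_iff₀ hp1]
    have e1 : (1 - t) ^ 4 * (p - 1) = p * (1 - t) ^ 5 := by
      have : p - 1 = p * (1 - t) := by rw [mul_sub, hpt, mul_one]
      rw [this]; ring
    have e2 : p - 3 = p * (1 - 3 * t) := by
      have : p * (1 - 3 * t) = p - 3 * (p * t) := by ring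
      rw [this, hpt]; ring
    rw [e1, e2]
    exact mul_le_mul_of_nonneg_left h5 hp0.le
  calc (1 - t) ^ 8 = ((1 - t) ^ 4) ^ 2 := by ring
    _ ≤ ((p - 3) / (p - 1)) ^ 2 := pow_le_pow_left₀ (by positivity) h4 2
    _ = (p - 3) ^ 2 / (p - 1) ^ 2 := by rw [div_pow]

private lemma cases_prime (p : ℕ) (hp : p.Prime) : p = 2 ∨ p = 3 ∨ 5 ≤ p := by
  have h2 := hp.two_le
  rcases Nat.lt_or_ge p 5 with h | h
  · interval_cases p
    · left; rfl
    · right; left; rfl
    · exact absurd hp (by norm_num)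
  · right; right; exact h

private lemma low (hRho : StRho) (v p : ℕ) (hv : Even v) (hp : p.Prime) :
    (1 - 1 / (p : ℝ)) ^ 8 ≤ 1 - gg v p := by
  obtain ⟨_, _, h2, h3, h5⟩ := hRho
  rcases cases_prime p hp with h | h | h
  · subst h
    unfold gg
    rw [h2 v hv]
    norm_num
  · subst h
    have hr : (rho v 3 : ℝ) ≤ 3 := by exact_mod_cast h3 v
    unfold gg
    have e : (((3 : ℕ) : ℝ) - 1) ^ 2 = 4 := by norm_num
    rw [e]
    have : (rho v 3 : ℝ) / 4 ≤ 3 / 4 := by linarith
    have h8 : (1 - 1 / ((3 : ℕ) : ℝ)) ^ 8 ≤ 1 / 4 := by norm_num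
    linarith
  · have hr := h5 v p hp h
    have hpr : (5 : ℝ) ≤ p := by exact_mod_cast h
    have hp1 : 0 < ((p : ℝ) - 1) ^ 2 := by
      have : 0 < (p : ℝ) - 1 := by linarith
      positivity
    refine (frac p hpr).trans ?_
    unfold gg
    have e : 1 - (rho v p : ℝ) / ((p : ℝ) - 1) ^ 2
        = (((p : ℝ) - 1) ^ 2 - rho v p) / ((p : ℝ) - 1) ^ 2 := by
      rw [sub_div, div_self hp1.ne']
    rw [e]
    exact div_le_div_of_nonneg_right (by linarith) hp1.le

private lemma up (hRho : StRho) (v p : ℕ) (hv : Even v) (hp : p.Prime) :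
    gg v p ≤ 8 * (1 / (p : ℝ)) := by
  obtain ⟨_, _, h2, h3, h5⟩ := hRho
  rcases cases_prime p hp with h | h | h
  · subst h
    unfold gg
    rw [h2 v hv]
    norm_num
  · subst h
    have hr : (rho v 3 : ℝ) ≤ 3 := by exact_mod_cast h3 v
    unfold gg
    have e : (((3 : ℕ) : ℝ) - 1) ^ 2 = 4 := by norm_num
    rw [e]
    have h8 : (8 : ℝ) * (1 / ((3 : ℕ) : ℝ)) = 8 / 3 := by norm_num
    rw [h8]
    linarith
  · have hr := h5 v p hp h
    have hpr : (5 : ℝ) ≤ p := by exact_mod_cast h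
    have hp0 : (0 : ℝ) < p := by linarith
    have hp1 : 0 < ((p : ℝ) - 1) ^ 2 := by
      have : 0 < (p : ℝ) - 1 := by linarith
      positivity
    unfold gg
    rw [mul_one_div, div_le_div_iff₀ hp1 hp0]
    have h6 : (rho v p : ℝ) * p ≤ (((p : ℝ) - 1) ^ 2 - ((p : ℝ) - 3) ^ 2) * p :=
      mul_le_mul_of_nonneg_right hr hp0.le
    nlinarith

theorem hPRD (hRho : StRho) (hVz : Pool.Agent.Helper48.BK.StVz) : StPrd := by
  obtain ⟨c, hc, hV⟩ := hVz
  refine ⟨c ^ 8, by positivity, ?_, ?_⟩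
  · intro v z hv hz
    have hlz : 0 < Real.log z := Real.log_pos (by exact_mod_cast hz)
    have h1 : (c / Real.log z) ^ 8 ≤ (Vz z) ^ 8 :=
      pow_le_pow_left₀ (by positivity) (hV z hz) 8
    have h2 : (Vz z) ^ 8 ≤ ∏ p ∈ Pz z, (1 - gg v p) := by
      unfold Vz
      rw [← Finset.prod_pow]
      refine Finset.prod_le_prod ?_ ?_
      · intro p hp
        have h3 : (1 : ℝ) < p := by exact_mod_cast ((mem_Pz_APZ z p).1 hp).2.one_lt
        have h4 : 0 ≤ 1 - 1 / (p : ℝ) := by
          rw [sub_nonneg, div_le_one (by linarith)]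
          exact h3.le
        positivity
      · intro p hp
        exact low hRho v p hv ((mem_Pz_APZ z p).1 hp).2
    calc c ^ 8 / Real.log z ^ 8 = (c / Real.log z) ^ 8 := by rw [div_pow]
      _ ≤ (Vz z) ^ 8 := h1
      _ ≤ ∏ p ∈ Pz z, (1 - gg v p) := h2
  · intro v z R hv hz
    have hsum : ∑ p ∈ Pz z, gg v p ≤ 8 * (1 + Real.log z) := by
      calc ∑ p ∈ Pz z, gg v p ≤ ∑ p ∈ Pz z, 8 * (1 / (p : ℝ)) :=
            Finset.sum_le_sum fun p hp => up hRho v p hv ((mem_Pz_APZ z p).1 hp).2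
        _ = 8 * ∑ p ∈ Pz z, (1 : ℝ) / p := by rw [Finset.mul_sum]
        _ ≤ 8 * (1 + Real.log z) := mul_le_mul_of_nonneg_left (sum_inv_APZ z) (by norm_num)
    have hexp1 : Real.exp 1 ≤ 3 := by
      have := Real.exp_one_lt_d9
      linarith
    have h1 : ∀ T ∈ (Pz z).powerset.filter (fun T => R ≤ T.card),
        ∏ p ∈ T, gg v p ≤ Real.exp (-R) * ∏ p ∈ T, (Real.exp 1 * gg v p) := by
      intro T hT
      have hcd := (Finset.mem_filter.1 hT).2
      rw [Finset.prod_mul_distrib, Finset.prod_const, ← mul_assoc]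
      have h2 : (1 : ℝ) ≤ Real.exp (-R) * Real.exp 1 ^ T.card := by
        rw [← Real.exp_nat_mul, ← Real.exp_add]
        refine Real.one_le_exp ?_
        have : (R : ℝ) ≤ T.card := by exact_mod_cast hcd
        linarith
      exact le_mul_of_one_le_left (Finset.prod_nonneg fun p _ => gg_nonneg v p) h2
    calc ∑ T ∈ (Pz z).powerset.filter (fun T => R ≤ T.card), ∏ p ∈ T, gg v p
        ≤ ∑ T ∈ (Pz z).powerset.filter (fun T => R ≤ T.card),
            Real.exp (-R) * ∏ p ∈ T, (Real.exp 1 * gg v p) := Finset.sum_le_sum h1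
      _ ≤ ∑ T ∈ (Pz z).powerset, Real.exp (-R) * ∏ p ∈ T, (Real.exp 1 * gg v p) :=
          Finset.sum_le_sum_of_subset_of_nonneg (Finset.filter_subset _ _) fun T _ _ =>
            mul_nonneg (Real.exp_nonneg _) (Finset.prod_nonneg fun p _ =>
              mul_nonneg (Real.exp_nonneg _) (gg_nonneg v p))
      _ = Real.exp (-R) * ∏ p ∈ Pz z, (1 + Real.exp 1 * gg v p) := by
          rw [← Finset.mul_sum, Finset.prod_one_add]
      _ ≤ Real.exp (-R) * Real.exp (24 * (1 + Real.log z)) := by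
          refine mul_le_mul_of_nonneg_left ?_ (Real.exp_nonneg _)
          calc ∏ p ∈ Pz z, (1 + Real.exp 1 * gg v p)
              ≤ ∏ p ∈ Pz z, Real.exp (Real.exp 1 * gg v p) := by
                refine Finset.prod_le_prod (fun p _ => ?_) fun p _ => ?_
                · have := mul_nonneg (Real.exp_nonneg 1) (gg_nonneg v p)
                  linarith
                · have := Real.add_one_le_exp (Real.exp 1 * gg v p)
                  linarith
            _ = Real.exp (Real.exp 1 * ∑ p ∈ Pz z, gg v p) := by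
                rw [← Real.exp_sum, Finset.mul_sum]
            _ ≤ Real.exp (24 * (1 + Real.log z)) := by
                refine Real.exp_le_exp.2 ?_
                calc Real.exp 1 * ∑ p ∈ Pz z, gg v p ≤ 3 * (8 * (1 + Real.log z)) :=
                      mul_le_mul hexp1 hsum (Finset.sum_nonneg fun p _ => gg_nonneg v p) (by norm_num)
                  _ = 24 * (1 + Real.log z) := by ring
      _ = Real.exp (24 * (1 + Real.log z) - R) := by rw [← Real.exp_add]; ring_nf

end Pool.Agent.Helper53.SK
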